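import Pool.Agent.D0H34.KC.Stm

/-!
# Project KC, PLC: at most one real place
-/

set_option autoImplicit false

namespace Pool.Agent.D0H56.KC

open Pool.Agent.D0H34.KC
open Polynomial NumberField

/-- **PLC.** -/
theorem t_PLC : S_PLC := by
  classical
  intro F _ _ f θ n hθ hgen hn hroot
  -- a real root of `f` for a real place
  have hreal : ∀ w : InfinitePlace F, w.IsReal →
      ∃ x : ℝ, aeval x f = 0 ∧ (x : ℂ) = w.embedding θ := by
    intro w hw
    refine ⟨InfinitePlace.embedding_of_isReal hw θ, ?_, ?_⟩
    · have h := congrArg (InfinitePlace.embedding_of_isReal hw) hθ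
      rw [map_zero, aeval_def, hom_eval₂] at h
      rw [aeval_def]
      convert h using 2
      exact RingHom.ext_int _ _
    · exact InfinitePlace.embedding_of_isReal_apply hw θ
  have hsub : ∀ w w' : InfinitePlace F, w.IsReal → w'.IsReal → w = w' := by
    intro w w' hw hw'
    obtain ⟨x, hx, hxe⟩ := hreal w hw
    obtain ⟨x', hx', hxe'⟩ := hreal w' hw'
    have hxx := hroot x x' hx hx'
    have hθθ : w.embedding θ = w'.embedding θ := by rw [← hxe, ← hxe', hxx]
    have hemb : w.embedding = w'.embedding := by
      refine RingHom.ext fun y => ?_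
      obtain ⟨P, rfl⟩ := hgen y
      rw [aeval_def, hom_eval₂, hom_eval₂, hθθ]
      congr 1
      exact RingHom.ext_rat _ _
    rw [← InfinitePlace.mk_embedding w, ← InfinitePlace.mk_embedding w', hemb]
  have h1 : InfinitePlace.nrRealPlaces F ≤ 1 := by
    unfold InfinitePlace.nrRealPlaces
    rw [Fintype.card_le_one_iff]
    rintro ⟨w, hw⟩ ⟨w', hw'⟩
    exact Subtype.ext (hsub w w' hw hw')
  have h2 := InfinitePlace.card_add_two_mul_card_eq_rank F
  have h3 := InfinitePlace.card_eq_nrRealPlaces_add_nrComplexPlaces F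
  have h4 : 0 < Fintype.card (InfinitePlace F) := Fintype.card_pos
  rw [hn] at h2
  refine ⟨h1, by omega, ?_⟩
  unfold Units.rank
  omega

end Pool.Agent.D0H56.KC
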